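import Pool.Agent.H2.Sph3

open Pool.Agent.H2.Sph

namespace Pool.Agent.Results.MP_5d3ebc_al.NoLefschetz

theorem result : ∃ (Δ : Set (Finset (Fin 50))) (c : Fin 50 → Fin 5),
    IsSphere 5 Δ ∧ IsColoring Δ c ∧
    ∀ (K : Type) [Field K], ¬ WLP (colIdeal K Δ c) ∧ ¬ SLP (colIdeal K Δ c) := by
  refine ⟨gen C24.f, C24.col, C24.sphere, C24.coloring, fun K _ => ⟨?_, ?_⟩⟩
  · rintro ⟨l, hl, h⟩
    exact C24.not_maxRank l hl (h 2)
  · rintro ⟨l, hl, h⟩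
    exact C24.not_maxRank l hl (by simpa using h 2 1 le_rfl)

end Pool.Agent.Results.MP_5d3ebc_al.NoLefschetz
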